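import Pool.Agent.H60.LVE.SMB

/-!
# The measure of the points seen by the functional: row DEC
-/

set_option autoImplicit false

open Finset MeasureTheory
open scoped Polynomial

namespace Pool.Agent.H60.LVE

open Pool.Agent.H24.CL Pool.Agent.H24.LV Pool.Agent.H50.LV

theorem LP_pos (k : ℕ) (P : ℝ[X]) : 1 ≤ LP k P := by
  unfold LP
  have : 0 ≤ ∑ j ∈ Icc 2 k, |P.coeff j| := Finset.sum_nonneg fun _ _ => abs_nonneg _
  linarith

theorem cont_e (P : ℝ[X]) (t : ℝ) :
    Continuous fun y : ℝ => e ((t * y + P.eval y : ℝ) : UnitAddCircle) := by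
  have h1 : Continuous fun y : ℝ => ((t * y + P.eval y : ℝ) : UnitAddCircle) := by
    apply (AddCircle.continuous_mk' (1 : ℝ)).comp
    fun_prop
  have h2 : Continuous (e : UnitAddCircle → ℂ) := by
    unfold e
    exact continuous_subtype_val.comp AddCircle.continuous_toCircle
  exact h2.comp h1

theorem pf_DEC (h1 : T_SPL) (h2 : T_LAG) (h3 : T_PIE) (h4 : T_SUB) : T_DEC := by
  intro k hk
  obtain ⟨C₁, hC₁, hlag⟩ := h2 (k - 1)
  set C₂ : ℝ := 2 ^ (k - 1) + k * C₁ with hC₂
  have hk0 : (0 : ℝ) < k := by exact_mod_cast (by omega : 0 < k)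
  have hC₂1 : 1 ≤ C₂ := by
    have h5 : (1 : ℝ) ≤ 2 ^ (k - 1) := one_le_pow₀ (by norm_num)
    have : 0 ≤ (k : ℝ) * C₁ := by positivity
    linarith
  refine ⟨((2 * (k : ℝ) + 1) * (2 + C₂)) ^ 2, ?_, ?_⟩
  · apply one_le_pow₀
    nlinarith
  intro P t a b hdeg ha hab hb
  have hlam := LP_pos k P
  set lam := LP k P with hl
  set μ : ℝ := lam ^ (1 / (k : ℝ)) with hμ
  have hμ1 : 1 ≤ μ := Real.one_le_rpow hlam (by positivity)
  have hμ0 : 0 < μ := by linarith
  have hμk : μ ^ k = lam := by
    rw [hμ, ← Real.rpow_natCast, ← Real.rpow_mul (by linarith), one_div,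
      inv_mul_cancel₀ hk0.ne', Real.rpow_one]
  obtain ⟨x, hx0, hx1, hxm, hxp⟩ := h3 k P hdeg
  have hpiece : ∀ i < 2 * k + 1, ∀ a' b' : ℝ, x i ≤ a' → a' ≤ b' → b' ≤ x (i + 1) →
      ‖∫ y in a'..b', e ((t * y + P.eval y : ℝ) : UnitAddCircle)‖ ≤ (2 + C₂) / μ := by
    intro i hi a' b' ha' hab' hb'
    have hxi : -1 ≤ x i := by rw [← hx0]; exact hxm (Nat.zero_le i)
    have hxi1 : x (i + 1) ≤ 1 := by rw [← hx1]; exact hxm (by omega)
    have hsgn : Sgn P a' b' := by
      rcases (hxp i hi).1 with h | h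
      · left
        intro y hy
        exact h y ⟨ha'.trans hy.1, hy.2.trans hb'⟩
      · right
        intro y hy
        exact h y ⟨ha'.trans hy.1, hy.2.trans hb'⟩
    obtain ⟨p, q, hp, hpq, hq, hpq', hO⟩ := h1 P t a' b' μ hab' hμ0 hsgn
    have hO' : ‖∫ y in a'..b', e ((t * y + P.eval y : ℝ) : UnitAddCircle)‖ ≤
        2 / μ + (q - p) := hO
    refine hO'.trans ?_
    rw [add_div]
    apply add_le_add le_rfl
    rcases hpq.eq_or_lt with he | hlt
    · rw [he, sub_self]
      positivity
    · have hflat := hpq' hlt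
      have hqp : 0 < q - p := by linarith
      set T : ℝ[X] := Polynomial.C t + Polynomial.derivative P with hT
      have hTdeg : T.natDegree ≤ k - 1 := by
        rw [hT]
        refine (Polynomial.natDegree_add_le _ _).trans ?_
        rw [Polynomial.natDegree_C]
        apply max_le (Nat.zero_le _)
        refine (Polynomial.natDegree_derivative_le P).trans ?_
        omega
      have hTe : ∀ y ∈ Set.Icc p q, |T.eval y| ≤ μ := by
        intro y hy
        rw [hT, Polynomial.eval_add, Polynomial.eval_C]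
        exact hflat y hy
      have hc : ∀ j ∈ Icc 2 k, |P.coeff j| * (q - p) ^ (k - 1) ≤ C₁ * μ := by
        intro j hj
        have hj2 := (Finset.mem_Icc.1 hj).1
        have h5 := hlag T p q μ hTdeg (by linarith) hlt (by linarith) hTe (j - 1)
        have h6 : T.coeff (j - 1) = P.coeff j * j := by
          rw [hT, Polynomial.coeff_add, Polynomial.coeff_C, if_neg (by omega), zero_add,
            Polynomial.coeff_derivative]
          obtain ⟨i', rfl⟩ : ∃ i', j = i' + 1 := ⟨j - 1, by omega⟩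
          simp only [Nat.add_sub_cancel]
          push_cast
          ring
        rw [h6, abs_mul] at h5
        refine le_trans ?_ h5
        apply mul_le_mul_of_nonneg_right _ (by positivity)
        have h7 : (1 : ℝ) ≤ |(j : ℝ)| := by
          rw [abs_of_nonneg (Nat.cast_nonneg j)]
          exact_mod_cast (by omega : 1 ≤ j)
        calc |P.coeff j| = |P.coeff j| * 1 := (mul_one _).symm
          _ ≤ _ := mul_le_mul_of_nonneg_left h7 (abs_nonneg _)
      have hsum : lam * (q - p) ^ (k - 1) ≤ C₂ * μ := by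
        rw [hl]
        unfold LP
        rw [add_mul, one_mul, Finset.sum_mul, hC₂, add_mul]
        apply add_le_add
        · calc (q - p) ^ (k - 1) ≤ 2 ^ (k - 1) :=
                pow_le_pow_left₀ hqp.le (by linarith) _
            _ = 2 ^ (k - 1) * 1 := (mul_one _).symm
            _ ≤ 2 ^ (k - 1) * μ := mul_le_mul_of_nonneg_left hμ1 (by positivity)
        · calc ∑ j ∈ Icc 2 k, |P.coeff j| * (q - p) ^ (k - 1)
              ≤ ∑ _j ∈ Icc 2 k, C₁ * μ := Finset.sum_le_sum hc
            _ = ((Icc 2 k).card : ℝ) * (C₁ * μ) := by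
                rw [Finset.sum_const, nsmul_eq_mul]
            _ ≤ (k : ℝ) * (C₁ * μ) := by
                apply mul_le_mul_of_nonneg_right _ (by positivity)
                rw [Nat.card_Icc]
                exact_mod_cast (by omega : k + 1 - 2 ≤ k)
            _ = k * C₁ * μ := by ring
      have hpow : ((q - p) * μ) ^ (k - 1) ≤ C₂ := by
        have h5 : μ ^ k = μ ^ (k - 1) * μ := by
          rw [← pow_succ]; congr 1; omega
        rw [← hμk, h5] at hsum
        apply le_of_mul_le_mul_right _ hμ0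
        calc ((q - p) * μ) ^ (k - 1) * μ = μ ^ (k - 1) * μ * (q - p) ^ (k - 1) := by
              rw [mul_pow]; ring
          _ ≤ _ := hsum
      have h6 : (q - p) * μ ≤ C₂ := by
        by_contra hcon
        push Not at hcon
        have h7 : (q - p) * μ ≤ ((q - p) * μ) ^ (k - 1) :=
          le_self_pow₀ (by linarith) (by omega)
        linarith
      rwa [le_div_iff₀ hμ0]
  have hS := h4 (fun y => e ((t * y + P.eval y : ℝ) : UnitAddCircle)) (2 * k + 1) x
    (fun _ => (2 + C₂) / μ) a b (cont_e P t) hxm (by rw [hx0]; exact ha) hab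
    (by rw [hx1]; exact hb) hpiece
  rw [Finset.sum_const, Finset.card_range, nsmul_eq_mul] at hS
  have hS' : ‖OP P t a b‖ ≤ (2 * (k : ℝ) + 1) * (2 + C₂) * μ⁻¹ := by
    refine hS.trans (le_of_eq ?_)
    push_cast
    rw [div_eq_mul_inv]
    ring
  calc ‖OP P t a b‖ ^ 2 ≤ ((2 * (k : ℝ) + 1) * (2 + C₂) * μ⁻¹) ^ 2 :=
        pow_le_pow_left₀ (norm_nonneg _) hS' 2
    _ = ((2 * (k : ℝ) + 1) * (2 + C₂)) ^ 2 * lam ^ (-(2 / (k : ℝ))) := by
        rw [mul_pow]
        congr 1
        rw [hμ, ← Real.rpow_neg (by linarith), ← Real.rpow_natCast, ← Real.rpow_mul (by linarith)]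
        congr 1
        push_cast
        ring

end Pool.Agent.H60.LVE
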