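import Pool.Agent.H50.LV.Targets

/-!
# The measure of the points seen by the functional: rows LAG, CSM
-/

set_option autoImplicit false

open Finset MeasureTheory
open scoped Polynomial

namespace Pool.Agent.H60.LVE

open Pool.Agent.H24.CL Pool.Agent.H24.LV Pool.Agent.H50.LV

theorem coeff_prod_le {ι : Type} [DecidableEq ι] (s : Finset ι) (a y : ι → ℝ) (B : ℝ) (hB : 0 ≤ B)
    (ha : ∀ i ∈ s, |a i| ≤ B) (hy : ∀ i ∈ s, |y i| ≤ 1) (j : ℕ) :
    |(∏ i ∈ s, (Polynomial.C (a i) * (Polynomial.X - Polynomial.C (y i)))).coeff j| ≤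
      (2 * B) ^ s.card := by
  induction s using Finset.induction_on generalizing j with
  | empty =>
    simp only [Finset.prod_empty, Finset.card_empty, pow_zero, Polynomial.coeff_one]
    split_ifs <;> simp
  | insert i s hi ih =>
    have ih' := ih (fun k hk => ha k (Finset.mem_insert_of_mem hk))
      (fun k hk => hy k (Finset.mem_insert_of_mem hk))
    rw [Finset.prod_insert hi, Finset.card_insert_of_notMem hi]
    set Q := ∏ i ∈ s, (Polynomial.C (a i) * (Polynomial.X - Polynomial.C (y i))) with hQ
    have hai := ha i (Finset.mem_insert_self _ _)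
    have hyi := hy i (Finset.mem_insert_self _ _)
    have e1 : Polynomial.C (a i) * (Polynomial.X - Polynomial.C (y i)) * Q =
        Polynomial.C (a i) * (Polynomial.X * Q - Polynomial.C (y i) * Q) := by ring
    rw [e1, Polynomial.coeff_C_mul, Polynomial.coeff_sub, Polynomial.coeff_C_mul, abs_mul]
    have h1 : |(Polynomial.X * Q).coeff j| ≤ (2 * B) ^ s.card := by
      cases j with
      | zero =>
        rw [Polynomial.mul_coeff_zero]
        simp only [Polynomial.coeff_X_zero, zero_mul, abs_zero]
        positivity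
      | succ j =>
        rw [Polynomial.coeff_X_mul]
        exact ih' j
    have h2 : |y i * Q.coeff j| ≤ (2 * B) ^ s.card := by
      rw [abs_mul]
      calc |y i| * |Q.coeff j| ≤ 1 * (2 * B) ^ s.card :=
            mul_le_mul hyi (ih' j) (abs_nonneg _) (by norm_num)
        _ = _ := one_mul _
    have h3 : |(Polynomial.X * Q).coeff j - y i * Q.coeff j| ≤ 2 * (2 * B) ^ s.card := by
      refine (abs_sub _ _).trans ?_
      linarith
    calc |a i| * |(Polynomial.X * Q).coeff j - y i * Q.coeff j|
        ≤ B * (2 * (2 * B) ^ s.card) := mul_le_mul hai h3 (abs_nonneg _) hB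
      _ = (2 * B) ^ (s.card + 1) := by ring

theorem pf_LAG : T_LAG := by
  intro d
  refine ⟨((d : ℝ) + 1) * (2 * d) ^ d + 1, ?_, ?_⟩
  · have : (0 : ℝ) ≤ ((d : ℝ) + 1) * (2 * d) ^ d := by positivity
    linarith
  intro P p q μ hdeg hp hpq hq hμ j
  have hqp : 0 < q - p := by linarith
  have hμ0 : 0 ≤ μ := le_trans (abs_nonneg _) (hμ p ⟨le_rfl, hpq.le⟩)
  set v : ℕ → ℝ := fun i => p + (q - p) * i / d with hv
  set s := Finset.range (d + 1) with hs
  have hvmem : ∀ i ∈ s, v i ∈ Set.Icc p q := by
    intro i hi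
    have hi' : i ≤ d := by
      have := Finset.mem_range.1 hi
      omega
    rcases Nat.eq_zero_or_pos d with hd | hd
    · subst hd
      simp only [hv, Nat.cast_zero, div_zero, add_zero]
      exact ⟨le_rfl, hpq.le⟩
    · have hd0 : (0 : ℝ) < d := by exact_mod_cast hd
      have h1 : (i : ℝ) ≤ d := by exact_mod_cast hi'
      have h0 : (0 : ℝ) ≤ i := Nat.cast_nonneg i
      simp only [hv]
      constructor
      · have : 0 ≤ (q - p) * i / d := by positivity
        linarith
      · have : (q - p) * i / d ≤ q - p := by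
          rw [div_le_iff₀ hd0]
          exact mul_le_mul_of_nonneg_left h1 hqp.le
        linarith
  have hdist : ∀ i ∈ s, ∀ i' ∈ s, i ≠ i' → (q - p) / d ≤ |v i - v i'| ∧ 0 < d := by
    intro i hi i' hi' hne
    have h1 := Finset.mem_range.1 hi
    have h2 := Finset.mem_range.1 hi'
    have hd : 0 < d := by omega
    have hd0 : (0 : ℝ) < d := by exact_mod_cast hd
    refine ⟨?_, hd⟩
    have e1 : v i - v i' = (q - p) / d * ((i : ℝ) - i') := by
      simp only [hv]
      ring
    rw [e1, abs_mul, abs_of_pos (by positivity : 0 < (q - p) / d)]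
    have h3 : (1 : ℝ) ≤ |(i : ℝ) - i'| := by
      have h4 : (1 : ℤ) ≤ |(i : ℤ) - i'| := by
        apply Int.one_le_abs
        omega
      have h5 : ((|(i : ℤ) - i'| : ℤ) : ℝ) = |(i : ℝ) - i'| := by push_cast; rfl
      rw [← h5]
      exact_mod_cast h4
    calc (q - p) / d = (q - p) / d * 1 := (mul_one _).symm
      _ ≤ _ := mul_le_mul_of_nonneg_left h3 (by positivity)
  have hinj : Set.InjOn v s := by
    intro i hi i' hi' he
    by_contra hne
    obtain ⟨h1, h2⟩ := hdist i hi i' hi' hne
    rw [he, sub_self, abs_zero] at h1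
    have hd0 : (0 : ℝ) < d := by exact_mod_cast h2
    have : 0 < (q - p) / d := by positivity
    linarith
  have hinterp : P = Lagrange.interpolate s v fun i => P.eval (v i) := by
    apply Lagrange.eq_interpolate hinj
    rw [hs, Finset.card_range]
    calc P.degree ≤ P.natDegree := Polynomial.degree_le_natDegree
      _ ≤ (d : WithBot ℕ) := by exact_mod_cast hdeg
      _ < ((d + 1 : ℕ) : WithBot ℕ) := by exact_mod_cast Nat.lt_succ_self d
  have hcoeff : ∀ i ∈ s, |(Lagrange.basis s v i).coeff j| * (q - p) ^ d ≤ (2 * d) ^ d := by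
    intro i hi
    have h1 : (Lagrange.basis s v i).coeff j = (∏ k ∈ s.erase i,
        (Polynomial.C (v i - v k)⁻¹ * (Polynomial.X - Polynomial.C (v k)))).coeff j := rfl
    have h2 := coeff_prod_le (s.erase i) (fun k => (v i - v k)⁻¹) v (d / (q - p))
      (by positivity) (by
        intro k hk
        obtain ⟨hne, hks⟩ := Finset.mem_erase.1 hk
        obtain ⟨h3, h4⟩ := hdist i hi k hks hne.symm
        have hd0 : (0 : ℝ) < d := by exact_mod_cast h4
        rw [abs_inv]
        have h5 := inv_anti₀ (by positivity : 0 < (q - p) / d) h3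
        rwa [inv_div] at h5) (by
        intro k hk
        have hks := (Finset.mem_erase.1 hk).2
        have h3 := hvmem k hks
        rw [abs_le]
        exact ⟨by linarith [h3.1], by linarith [h3.2]⟩) j
    rw [h1]
    have hcard : (s.erase i).card = d := by
      rw [Finset.card_erase_of_mem hi, hs, Finset.card_range]
      rfl
    rw [hcard] at h2
    calc _ ≤ (2 * ((d : ℝ) / (q - p))) ^ d * (q - p) ^ d :=
          mul_le_mul_of_nonneg_right h2 (by positivity)
      _ = (2 * d) ^ d := by
          rw [← mul_pow]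
          congr 1
          field_simp
  have hsum : |P.coeff j| ≤ ∑ i ∈ s, μ * |(Lagrange.basis s v i).coeff j| := by
    have h1 : P.coeff j = ∑ i ∈ s, P.eval (v i) * (Lagrange.basis s v i).coeff j := by
      conv_lhs => rw [hinterp]
      rw [Lagrange.interpolate_apply, Polynomial.finset_sum_coeff]
      refine Finset.sum_congr rfl fun i _ => ?_
      rw [Polynomial.coeff_C_mul]
    rw [h1]
    refine (Finset.abs_sum_le_sum_abs _ _).trans ?_
    refine Finset.sum_le_sum fun i hi => ?_
    rw [abs_mul]
    exact mul_le_mul_of_nonneg_right (hμ _ (hvmem i hi)) (abs_nonneg _)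
  calc |P.coeff j| * (q - p) ^ d
      ≤ (∑ i ∈ s, μ * |(Lagrange.basis s v i).coeff j|) * (q - p) ^ d :=
        mul_le_mul_of_nonneg_right hsum (by positivity)
    _ = ∑ i ∈ s, μ * (|(Lagrange.basis s v i).coeff j| * (q - p) ^ d) := by
        rw [Finset.sum_mul]
        exact Finset.sum_congr rfl fun i _ => by ring
    _ ≤ ∑ i ∈ s, μ * (2 * d) ^ d := by
        refine Finset.sum_le_sum fun i hi => ?_
        exact mul_le_mul_of_nonneg_left (hcoeff i hi) hμ0
    _ = ((d : ℝ) + 1) * (2 * d) ^ d * μ := by
        rw [Finset.sum_const, hs, Finset.card_range, nsmul_eq_mul]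
        push_cast
        ring
    _ ≤ (((d : ℝ) + 1) * (2 * d) ^ d + 1) * μ := by
        apply mul_le_mul_of_nonneg_right _ hμ0
        linarith

theorem pf_CSM (h1 : T_QSM) : T_CSM := by
  intro k hk κ hκ
  have hk1 : (0 : ℝ) < (k : ℝ) - 1 := by
    have : (2 : ℝ) ≤ k := by exact_mod_cast hk
    linarith
  set κ' : ℝ := κ / ((k : ℝ) - 1) with hκ'
  have hκ1 : 1 < κ' := by rw [hκ', one_lt_div hk1]; exact hκ
  obtain ⟨C₁, hC₁, hq⟩ := h1 κ' hκ1
  refine ⟨(2 * C₁) ^ k, one_le_pow₀ (by linarith), ?_⟩
  intro D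
  have hκ0 : 0 < κ' := by linarith
  -- one coordinate
  have hone : ∑ n ∈ Icc (-(D : ℤ)) D, (1 + |(n : ℝ)|) ^ (-κ') ≤ 2 * C₁ := by
    have h2 := hq (D + 1)
    have h3 : ∑ n ∈ Icc (-(D : ℤ)) D, (1 + |(n : ℝ)|) ^ (-κ') ≤
        2 * ∑ q ∈ Icc 1 (D + 1), (q : ℝ) ^ (-κ') := by
      -- split
      have hsub : Icc (-(D : ℤ)) D ⊆
          (Icc 1 (D + 1)).image (fun q : ℕ => (q : ℤ) - 1) ∪
          (Icc 1 (D + 1)).image (fun q : ℕ => 1 - (q : ℤ)) := by
        intro n hn
        rw [Finset.mem_Icc] at hn
        rw [Finset.mem_union, Finset.mem_image, Finset.mem_image]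
        rcases le_total 0 n with h | h
        · left
          exact ⟨n.toNat + 1, Finset.mem_Icc.2 ⟨by omega, by omega⟩, by push_cast; omega⟩
        · right
          exact ⟨(-n).toNat + 1, Finset.mem_Icc.2 ⟨by omega, by omega⟩, by push_cast; omega⟩
      have hpos : ∀ n : ℤ, 0 ≤ (1 + |(n : ℝ)|) ^ (-κ') := fun n => by positivity
      refine (Finset.sum_le_sum_of_subset_of_nonneg hsub (fun n _ _ => hpos n)).trans ?_
      have hun := Finset.sum_union_inter (s₁ := (Icc 1 (D + 1)).image (fun q : ℕ => (q : ℤ) - 1))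
        (s₂ := (Icc 1 (D + 1)).image (fun q : ℕ => 1 - (q : ℤ)))
        (f := fun n : ℤ => (1 + |(n : ℝ)|) ^ (-κ'))
      have hin : 0 ≤ ∑ n ∈ (Icc 1 (D + 1)).image (fun q : ℕ => (q : ℤ) - 1) ∩
        (Icc 1 (D + 1)).image (fun q : ℕ => 1 - (q : ℤ)), (1 + |(n : ℝ)|) ^ (-κ') :=
        Finset.sum_nonneg fun n _ => hpos n
      refine (le_of_add_le_of_nonneg_left hun.le hin).trans ?_
      rw [two_mul]
      apply add_le_add
      · rw [Finset.sum_image (by intro a _ b _ hab; simp only [] at hab; omega)]
        apply Finset.sum_le_sum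
        intro q hq
        have h1q : (1 : ℝ) ≤ q := by exact_mod_cast (Finset.mem_Icc.1 hq).1
        push_cast
        rw [abs_of_nonneg (by linarith)]
        apply le_of_eq
        congr 1
        ring
      · rw [Finset.sum_image (by intro a _ b _ hab; simp only [] at hab; omega)]
        apply Finset.sum_le_sum
        intro q hq
        have h1q : (1 : ℝ) ≤ q := by exact_mod_cast (Finset.mem_Icc.1 hq).1
        push_cast
        rw [abs_of_nonpos (by linarith)]
        apply le_of_eq
        congr 1
        ring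
    linarith
  -- the product bound
  have hprod : ∀ c ∈ Dc k D, Lam (fun i => (c i : ℝ)) ^ (-κ) ≤
      ∏ i : Fin k, (if i.val = 0 then (1 : ℝ) else (1 + |(c i : ℝ)|) ^ (-κ')) := by
    intro c _
    set Λ := Lam (fun i => (c i : ℝ)) with hΛ
    have hterm : ∀ i : Fin k, 0 ≤ (if i.val = 0 then (0 : ℝ) else |(c i : ℝ)|) := by
      intro i
      split_ifs
      · exact le_rfl
      · exact abs_nonneg _
    have hΛ1 : ∀ i : Fin k, i.val ≠ 0 → 1 + |(c i : ℝ)| ≤ Λ := by
      intro i hi
      rw [hΛ]
      unfold Lam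
      have := Finset.single_le_sum (f := fun i : Fin k => if i.val = 0 then (0 : ℝ) else
        |(c i : ℝ)|) (fun i _ => hterm i) (Finset.mem_univ i)
      simp only [if_neg hi] at this
      linarith
    have hΛpos : 1 ≤ Λ := by
      rw [hΛ]
      unfold Lam
      have := Finset.sum_nonneg (s := Finset.univ) (f := fun i : Fin k =>
        if i.val = 0 then (0 : ℝ) else |(c i : ℝ)|) (fun i _ => hterm i)
      linarith
    have h3 : ∏ i : Fin k, (if i.val = 0 then (1 : ℝ) else Λ ^ (-κ')) ≤
        ∏ i : Fin k, (if i.val = 0 then (1 : ℝ) else (1 + |(c i : ℝ)|) ^ (-κ')) := by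
      apply Finset.prod_le_prod
      · intro i _
        split_ifs
        · norm_num
        · positivity
      · intro i _
        split_ifs with h
        · exact le_rfl
        · apply Real.rpow_le_rpow_of_nonpos (by positivity) (hΛ1 i h)
          linarith
    refine le_trans (le_of_eq ?_) h3
    rw [Finset.prod_ite, Finset.prod_const_one, one_mul, Finset.prod_const]
    have hcard : (Finset.univ.filter fun i : Fin k => ¬ i.val = 0).card = k - 1 := by
      have h4 : (Finset.univ.filter fun i : Fin k => ¬ i.val = 0) =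
          Finset.univ.erase ⟨0, by omega⟩ := by
        ext i
        simp only [Finset.mem_filter, Finset.mem_univ, true_and, Finset.mem_erase, and_true,
          Ne, Fin.ext_iff]
      rw [h4, Finset.card_erase_of_mem (Finset.mem_univ _), Finset.card_univ, Fintype.card_fin]
    rw [hcard, ← Real.rpow_natCast, ← Real.rpow_mul (by linarith)]
    congr 1
    rw [hκ', Nat.cast_sub (by omega)]
    push_cast
    field_simp
  refine (Finset.sum_le_sum hprod).trans ?_
  have h5 : ∑ c ∈ Dc k D, ∏ i : Fin k, (if i.val = 0 then (1 : ℝ) else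
      (1 + |(c i : ℝ)|) ^ (-κ')) = ∏ i : Fin k, ∑ n ∈ (if i.val = 0 then ({0} : Finset ℤ) else
        Icc (-(D : ℤ)) D), (if i.val = 0 then (1 : ℝ) else (1 + |(n : ℝ)|) ^ (-κ')) := by
    unfold Dc
    rw [Finset.prod_univ_sum]
  rw [h5]
  calc _ ≤ ∏ _i : Fin k, 2 * C₁ := by
        apply Finset.prod_le_prod
        · intro i _
          apply Finset.sum_nonneg
          intro n _
          split_ifs
          · norm_num
          · positivity
        · intro i _
          by_cases hi : i.val = 0
          · simp only [if_pos hi, Finset.sum_singleton]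
            linarith
          · simp only [if_neg hi]
            exact hone
    _ = _ := by rw [Finset.prod_const, Finset.card_univ, Fintype.card_fin]

end Pool.Agent.H60.LVE
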