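import Pool.Agent.H50.LV.Targets

/-!
# The measure of the points seen by the functional: rows MKV, CIN
-/

set_option autoImplicit false

open Finset MeasureTheory
open scoped Polynomial

namespace Pool.Agent.H60.LVE

open Pool.Agent.H24.CL Pool.Agent.H24.LV Pool.Agent.H50.LV

theorem pf_MKV : T_MKV := by
  intro ι _ w v u s δ W hw hu hu1 huv hs hδ hW hWs
  set F : UnitAddCircle → ℝ := fun y => ∑ j, w j * u j y with hF
  have hFc : Continuous F := continuous_finset_sum _ fun j _ => continuous_const.mul (hu j)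
  have hF0 : ∀ y, 0 ≤ F y := fun y =>
    Finset.sum_nonneg fun j _ => mul_nonneg (hw j) (hu1 j y).1
  have hs0 : 0 < s := by linarith
  -- pointwise
  have hpt : ∀ y, F y ^ s ≤ W ^ (s - 1) * ∑ j, w j * u j y ^ 2 := by
    intro y
    set S := ∑ j, w j with hS
    have hS0 : 0 ≤ S := Finset.sum_nonneg fun j _ => hw j
    have hsum0 : 0 ≤ ∑ j, w j * u j y ^ 2 :=
      Finset.sum_nonneg fun j _ => mul_nonneg (hw j) (sq_nonneg _)
    rcases hS0.eq_or_lt with h0 | hpos
    · have hw0 : ∀ j, w j = 0 := by
        intro j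
        have := (Finset.sum_eq_zero_iff_of_nonneg (fun j _ => hw j)).1 (h0.symm) j
          (Finset.mem_univ j)
        exact this
      have : F y = 0 := by
        simp only [hF, hw0, zero_mul, Finset.sum_const_zero]
      rw [this, Real.zero_rpow hs0.ne']
      positivity
    · have h1 := Real.rpow_arith_mean_le_arith_mean_rpow Finset.univ (fun j => w j / S)
        (fun j => u j y) (fun j _ => div_nonneg (hw j) hS0)
        (by rw [← Finset.sum_div, ← hS, div_self hpos.ne']) (fun j _ => (hu1 j y).1)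
        (by linarith : 1 ≤ s)
      have h2 : F y = S * ∑ j, w j / S * u j y := by
        simp only [hF]
        rw [Finset.mul_sum]
        refine Finset.sum_congr rfl fun j _ => ?_
        field_simp
      have hm0 : 0 ≤ ∑ j, w j / S * u j y :=
        Finset.sum_nonneg fun j _ => mul_nonneg (div_nonneg (hw j) hS0) (hu1 j y).1
      rw [h2, Real.mul_rpow hS0 hm0]
      have h3 : ∑ j, w j / S * u j y ^ s ≤ (1 / S) * ∑ j, w j * u j y ^ 2 := by
        rw [Finset.mul_sum]
        refine Finset.sum_le_sum fun j _ => ?_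
        have h4 : u j y ^ s ≤ u j y ^ 2 := by
          rw [← Real.rpow_natCast (u j y) 2]
          exact Real.rpow_le_rpow_of_exponent_ge' (hu1 j y).1 (hu1 j y).2 (by norm_num)
            (by push_cast; exact hs)
        calc w j / S * u j y ^ s ≤ w j / S * u j y ^ 2 :=
              mul_le_mul_of_nonneg_left h4 (div_nonneg (hw j) hS0)
          _ = _ := by ring
      have h5 : S ^ s = S ^ (s - 1) * S := by
        rw [← Real.rpow_add_one hpos.ne']
        congr 1
        ring
      calc S ^ s * (∑ j, w j / S * u j y) ^ s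
          ≤ S ^ s * ((1 / S) * ∑ j, w j * u j y ^ 2) :=
            mul_le_mul_of_nonneg_left (h1.trans h3) (by positivity)
        _ = S ^ (s - 1) * ∑ j, w j * u j y ^ 2 := by
            rw [h5]; field_simp
        _ ≤ W ^ (s - 1) * ∑ j, w j * u j y ^ 2 := by
            apply mul_le_mul_of_nonneg_right _ hsum0
            exact Real.rpow_le_rpow hS0 hWs (by linarith)
  -- Markov
  have hFs : Continuous fun y => F y ^ s := hFc.rpow_const fun y => Or.inr hs0.le
  have hint : Integrable (fun y => F y ^ s) (volume : Measure UnitAddCircle) :=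
    hFs.integrable_of_hasCompactSupport (HasCompactSupport.of_compactSpace _)
  have hM := mul_meas_ge_le_integral_of_nonneg (μ := (volume : Measure UnitAddCircle))
    (f := fun y => F y ^ s) (Filter.Eventually.of_forall fun y => Real.rpow_nonneg (hF0 y) s)
    hint (δ ^ s)
  have hset : {y : UnitAddCircle | δ ≤ F y} ⊆ {y | δ ^ s ≤ F y ^ s} := fun y hy =>
    Real.rpow_le_rpow hδ.le hy hs0.le
  have h1 : volume.real {y : UnitAddCircle | δ ≤ F y} ≤
      volume.real {y : UnitAddCircle | δ ^ s ≤ F y ^ s} := measureReal_mono hset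
  have hu2c : ∀ j, Continuous fun y => u j y ^ 2 := fun j => (hu j).pow 2
  have hu2i : ∀ j, Integrable (fun y => u j y ^ 2) (volume : Measure UnitAddCircle) := fun j =>
    (hu2c j).integrable_of_hasCompactSupport (HasCompactSupport.of_compactSpace _)
  have h2 : ∫ y, F y ^ s ≤ W ^ (s - 1) * ∑ j, w j * v j := by
    calc ∫ y, F y ^ s ≤ ∫ y, W ^ (s - 1) * ∑ j, w j * u j y ^ 2 := by
          apply integral_mono hint _ hpt
          exact (integrable_finset_sum _ fun j _ => (hu2i j).const_mul _).const_mul _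
      _ = W ^ (s - 1) * ∑ j, w j * ∫ y, u j y ^ 2 := by
          rw [integral_const_mul, integral_finset_sum _ fun j _ => (hu2i j).const_mul _]
          congr 1
          refine Finset.sum_congr rfl fun j _ => ?_
          rw [integral_const_mul]
      _ ≤ _ := by
          apply mul_le_mul_of_nonneg_left _ (by positivity)
          exact Finset.sum_le_sum fun j _ => mul_le_mul_of_nonneg_left (huv j) (hw j)
  have hδs : 0 < δ ^ s := Real.rpow_pos_of_pos hδ s
  show volume.real {y : UnitAddCircle | δ ≤ F y} ≤ _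
  rw [Real.rpow_neg hδ.le, mul_assoc, inv_mul_eq_div, le_div_iff₀ hδs]
  calc volume.real {y : UnitAddCircle | δ ≤ F y} * δ ^ s
      ≤ volume.real {y : UnitAddCircle | δ ^ s ≤ F y ^ s} * δ ^ s :=
        mul_le_mul_of_nonneg_right h1 hδs.le
    _ = δ ^ s * volume.real {y : UnitAddCircle | δ ^ s ≤ F y ^ s} := mul_comm _ _
    _ ≤ ∫ y, F y ^ s := hM
    _ ≤ _ := h2

theorem half_int (B : ℝ) (hB : 0 < B) :
    ∫ x in (0 : ℝ)..(1 / 2), (1 / (1 + B * |x|)) ^ 2 ≤ 1 / B := by
  have h1 : ∫ x in (0 : ℝ)..(1 / 2), (1 / (1 + B * |x|)) ^ 2 =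
      ∫ x in (0 : ℝ)..(1 / 2), (1 / (1 + B * x)) ^ 2 := by
    apply intervalIntegral.integral_congr
    intro x hx
    rw [Set.uIcc_of_le (by norm_num)] at hx
    simp only [abs_of_nonneg hx.1]
  rw [h1]
  have h2 : ∀ x ∈ Set.uIcc (0 : ℝ) (1 / 2),
      HasDerivAt (fun x => -(1 / B) * (1 + B * x)⁻¹) ((1 / (1 + B * x)) ^ 2) x := by
    intro x hx
    rw [Set.uIcc_of_le (by norm_num)] at hx
    have hpos : 0 < 1 + B * x := by have := hx.1; positivity
    have h3 : HasDerivAt (fun x : ℝ => 1 + B * x) B x := by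
      have := ((hasDerivAt_id x).const_mul B).const_add 1
      simpa using this
    have h4 := (h3.inv hpos.ne').const_mul (-(1 / B))
    have e : (1 / (1 + B * x)) ^ 2 = -(1 / B) * (-B / (1 + B * x) ^ 2) := by
      have hB' : B ≠ 0 := hB.ne'
      have hp' : (1 + B * x) ≠ 0 := hpos.ne'
      rw [div_pow, one_pow, neg_div, neg_mul_neg, ← mul_div_assoc, one_div_mul_cancel hB']
    rw [e]
    exact h4
  have hcont : ContinuousOn (fun x : ℝ => (1 / (1 + B * x)) ^ 2) (Set.uIcc (0 : ℝ) (1 / 2)) := by
    rw [Set.uIcc_of_le (by norm_num)]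
    apply ContinuousOn.pow
    apply ContinuousOn.div continuousOn_const (by fun_prop)
    intro x hx
    have : 0 < 1 + B * x := by have := hx.1; positivity
    exact this.ne'
  rw [intervalIntegral.integral_eq_sub_of_hasDerivAt h2 hcont.intervalIntegrable]
  have h5 : 0 ≤ 1 / B * (1 + B * (1 / 2))⁻¹ := by positivity
  have h6 : -(1 / B) * (1 + B * 0)⁻¹ = -(1 / B) := by simp
  rw [h6]
  linarith

theorem pf_CIN : T_CIN := by
  intro T B ζ hT hB
  haveI : Fact ((0 : ℝ) < 1) := ⟨one_pos⟩
  set g : UnitAddCircle → ℝ := fun y => (1 / (1 + B * ‖y‖)) ^ 2 with hg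
  have hgc : Continuous g := by
    apply Continuous.pow
    apply Continuous.div continuous_const (by fun_prop)
    intro y
    have : 0 < 1 + B * ‖y‖ := by positivity
    exact this.ne'
  have hmp : MeasurePreserving (fun y : UnitAddCircle => T • y + ζ) volume volume := by
    rcases Nat.eq_or_lt_of_le hT with h | h
    · subst h
      simp only [one_smul]
      exact measurePreserving_add_right volume ζ
    · exact (AddCircle.ergodic_nsmul_add ζ h).toMeasurePreserving
  have h1 : ∫ y : UnitAddCircle, (1 / (1 + B * ‖T • y + ζ‖)) ^ 2 = ∫ y, g y := by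
    have h2 := integral_map (μ := (volume : Measure UnitAddCircle)) hmp.measurable.aemeasurable
      (f := g) hgc.aestronglyMeasurable
    rw [hmp.map_eq] at h2
    exact h2.symm
  rw [h1, ← UnitAddCircle.intervalIntegral_preimage (-(1 / 2)) g]
  have e1 : -(1 / 2 : ℝ) + 1 = 1 / 2 := by norm_num
  rw [e1]
  have hf : ∀ x ∈ Set.uIcc (-(1 / 2) : ℝ) (1 / 2), g (x : UnitAddCircle) =
      (1 / (1 + B * |x|)) ^ 2 := by
    intro x hx
    rw [Set.uIcc_of_le (by norm_num)] at hx
    have h3 : ‖(x : UnitAddCircle)‖ = |x| := by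
      rw [AddCircle.norm_coe_eq_abs_iff (1 : ℝ) one_ne_zero, abs_one, abs_le]
      exact ⟨by linarith [hx.1], by linarith [hx.2]⟩
    simp only [hg, h3]
  rw [intervalIntegral.integral_congr hf]
  have hcont : Continuous fun x : ℝ => (1 / (1 + B * |x|)) ^ 2 := by
    apply Continuous.pow
    apply Continuous.div continuous_const (by fun_prop)
    intro y
    have : 0 < 1 + B * |y| := by positivity
    exact this.ne'
  rw [← intervalIntegral.integral_add_adjacent_intervals (hcont.intervalIntegrable _ 0)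
    (hcont.intervalIntegrable 0 _)]
  have h4 : ∫ x in (-(1 / 2) : ℝ)..0, (1 / (1 + B * |x|)) ^ 2 =
      ∫ x in (0 : ℝ)..(1 / 2), (1 / (1 + B * |x|)) ^ 2 := by
    have h5 := intervalIntegral.integral_comp_neg (a := (0 : ℝ)) (b := 1 / 2)
      (fun x : ℝ => (1 / (1 + B * |x|)) ^ 2)
    simp only [abs_neg, neg_zero] at h5
    exact h5.symm
  rw [h4]
  have h6 := half_int B hB
  have e2 : 2 / B = 1 / B + 1 / B := by ring
  rw [e2]
  linarith

end Pool.Agent.H60.LVE
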