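import Pool.Agent.H50.LV.Targets

/-!
# The measure of the points seen by the functional: rows SMB, RMC
-/

set_option autoImplicit false

open Finset MeasureTheory
open scoped Polynomial

namespace Pool.Agent.H60.LVE

open Pool.Agent.H24.CL Pool.Agent.H24.LV Pool.Agent.H50.LV

/-- telescoping sum -/
theorem tele (L : ℝ) (hL : 1 ≤ L) (n : ℕ) :
    ∑ i ∈ Icc (-(n : ℤ)) n, 1 / (L + |(i : ℝ)|) ^ 2 ≤ 3 / L - 2 / (L + n) := by
  induction n with
  | zero =>
    simp only [Nat.cast_zero, neg_zero, Icc_self, sum_singleton, Int.cast_zero, abs_zero, add_zero]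
    have h1 : 1 / L ^ 2 ≤ 1 / L := by
      apply one_div_le_one_div_of_le (by linarith)
      nlinarith
    have h2 : 3 / L - 2 / L = 1 / L := by ring
    rw [h2]
    exact h1
  | succ n ih =>
    have e1 : Icc (-((n + 1 : ℕ) : ℤ)) ((n + 1 : ℕ) : ℤ) =
        insert ((n + 1 : ℕ) : ℤ) (insert (-((n + 1 : ℕ) : ℤ)) (Icc (-(n : ℤ)) n)) := by
      ext i
      simp only [Finset.mem_insert, Finset.mem_Icc]
      push_cast
      omega
    rw [e1, Finset.sum_insert, Finset.sum_insert]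
    · have hn : (0 : ℝ) ≤ n := Nat.cast_nonneg n
      have h1 : |(((n + 1 : ℕ) : ℤ) : ℝ)| = n + 1 := by
        push_cast
        exact abs_of_nonneg (by linarith)
      have h2 : |((-((n + 1 : ℕ) : ℤ) : ℤ) : ℝ)| = n + 1 := by
        push_cast
        rw [abs_of_nonpos (by linarith)]
        ring
      rw [h1, h2]
      have h3 : 1 / (L + ((n : ℝ) + 1)) ^ 2 ≤ 1 / (L + n) - 1 / (L + (n + 1)) := by
        have ha : 0 < L + n := by linarith
        have hb : 0 < L + (n + 1) := by linarith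
        rw [div_sub_div _ _ ha.ne' hb.ne', div_le_div_iff₀ (by positivity) (by positivity)]
        nlinarith
      have h4 : 2 / (L + (n : ℝ)) = 2 * (1 / (L + n)) := by ring
      have h5 : 2 / (L + ((n + 1 : ℕ) : ℝ)) = 2 * (1 / (L + (n + 1))) := by push_cast; ring
      rw [h4] at ih
      rw [h5]
      linarith
    · simp only [Finset.mem_Icc]
      push_cast
      omega
    · simp only [Finset.mem_insert, Finset.mem_Icc]
      push_cast
      omega

theorem pf_SMB : T_SMB := by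
  intro N T R Z ζ s hN hT hTR hZ
  have hT0 : 0 < T := by linarith
  have hR0 : 0 < R := by linarith
  have hN0 : 0 < N := by linarith
  have hZ0 : 0 < Z := by linarith
  obtain ⟨θ, hθ⟩ : ∃ θ : ℝ, θ = T * ζ := ⟨_, rfl⟩
  obtain ⟨m₀, hm₀⟩ : ∃ m₀ : ℤ, m₀ = -round θ := ⟨_, rfl⟩
  obtain ⟨L, hL⟩ : ∃ L : ℝ, L = 2 * R * Z := ⟨_, rfl⟩
  have hL1 : 1 ≤ L := by rw [hL]; nlinarith
  -- the terms
  have hterm : ∀ j ∈ s, (if Z < |N * (ζ + j / T)| then 1 / (N * (ζ + j / T)) ^ 2 else 0) ≤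
      16 * R ^ 2 * (1 / (L + |((j - m₀ : ℤ) : ℝ)|) ^ 2) := by
    intro j _
    split_ifs with h
    · set i : ℤ := j - m₀ with hi
      have h1 : N * (ζ + j / T) = N / T * (θ + j) := by rw [hθ]; field_simp
      have h2 : |(i : ℝ)| / 2 ≤ |θ + j| := by
        -- θ + j = (θ - round θ) + i
        have e2 : θ + j = (θ - round θ) + i := by
          rw [hi, hm₀]; push_cast; ring
        have h3 : |θ - round θ| ≤ 1 / 2 := abs_sub_round θ
        by_cases h0 : i = 0
        · rw [h0]; simp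
        · have h4 : (1 : ℝ) ≤ |(i : ℝ)| := by
            have := Int.one_le_abs h0
            exact_mod_cast this
          have h5 : |(i : ℝ)| - |θ - round θ| ≤ |θ + j| := by
            rw [e2]
            have h6 := abs_sub_abs_le_abs_sub (i : ℝ) (-(θ - round θ))
            rw [abs_neg, sub_neg_eq_add, add_comm (i : ℝ)] at h6
            exact h6
          linarith
      have h3 : |(i : ℝ)| / (2 * R) ≤ |N * (ζ + j / T)| := by
        rw [h1, abs_mul, abs_of_pos (by positivity : 0 < N / T)]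
        have h4 : 1 / R ≤ N / T := by
          rw [div_le_div_iff₀ hR0 hT0]
          nlinarith
        calc |(i : ℝ)| / (2 * R) = 1 / R * (|(i : ℝ)| / 2) := by ring
          _ ≤ N / T * |θ + j| := mul_le_mul h4 h2 (by positivity) (by positivity)
      have h4 : (L + |(i : ℝ)|) / (4 * R) ≤ |N * (ζ + j / T)| := by
        have h5 : (L + |(i : ℝ)|) / (4 * R) = (Z + |(i : ℝ)| / (2 * R)) / 2 := by
          rw [hL]; field_simp; ring
        rw [h5]
        linarith
      rw [← sq_abs (N * (ζ + j / T))]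
      have h5 : 0 < (L + |(i : ℝ)|) / (4 * R) := by positivity
      calc 1 / |N * (ζ + j / T)| ^ 2 ≤ 1 / ((L + |(i : ℝ)|) / (4 * R)) ^ 2 := by
            apply one_div_le_one_div_of_le (by positivity)
            exact pow_le_pow_left₀ h5.le h4 2
        _ = 16 * R ^ 2 * (1 / (L + |(i : ℝ)|) ^ 2) := by
            rw [div_pow, one_div_div]; ring
    · positivity
  refine (Finset.sum_le_sum hterm).trans ?_
  rw [← Finset.mul_sum]
  -- the sum over i
  have hsum : ∑ j ∈ s, 1 / (L + |((j - m₀ : ℤ) : ℝ)|) ^ 2 ≤ 3 / L := by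
    have e1 : ∑ j ∈ s, 1 / (L + |((j - m₀ : ℤ) : ℝ)|) ^ 2 =
        ∑ i ∈ s.image (fun j => j - m₀), 1 / (L + |(i : ℝ)|) ^ 2 := by
      rw [Finset.sum_image (fun a _ b _ hab => sub_left_injective hab)]
    rw [e1]
    obtain ⟨n, hn⟩ : ∃ n : ℕ, s.image (fun j => j - m₀) ⊆ Icc (-(n : ℤ)) n := by
      refine ⟨(s.image (fun j => j - m₀)).sup Int.natAbs, fun i hi => ?_⟩
      have := Finset.le_sup (f := Int.natAbs) hi
      rw [Finset.mem_Icc]
      omega
    refine (Finset.sum_le_sum_of_subset_of_nonneg hn (fun i _ _ => by positivity)).trans ?_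
    refine (tele L hL1 n).trans ?_
    have : 0 ≤ 2 / (L + n) := by positivity
    linarith
  calc 16 * R ^ 2 * ∑ j ∈ s, 1 / (L + |((j - m₀ : ℤ) : ℝ)|) ^ 2
      ≤ 16 * R ^ 2 * (3 / L) := mul_le_mul_of_nonneg_left hsum (by positivity)
    _ = 24 * R / Z := by rw [hL]; field_simp; ring
    _ ≤ 50 * R / Z := by
        apply div_le_div_of_nonneg_right _ hZ0.le
        linarith

/-- the coefficients of `Pc` -/
theorem Pc_coeff {k : ℕ} (c : Fin k → ℝ) (j : ℕ) :
    (Pc c).coeff j = ∑ i : Fin k, if i.val = 0 then 0 else if j = i.val + 1 then c i else 0 := by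
  unfold Pc
  rw [Polynomial.finset_sum_coeff]
  refine Finset.sum_congr rfl fun i _ => ?_
  split_ifs with h1 h2
  · simp
  · rw [Polynomial.coeff_C_mul, Polynomial.coeff_X_pow, if_pos h2, mul_one]
  · rw [Polynomial.coeff_C_mul, Polynomial.coeff_X_pow, if_neg h2, mul_zero]

theorem Pc_coeff_succ {k : ℕ} (c : Fin k → ℝ) (i : Fin k) (hi : i.val ≠ 0) :
    (Pc c).coeff (i.val + 1) = c i := by
  rw [Pc_coeff, Finset.sum_eq_single i]
  · rw [if_neg hi, if_pos rfl]
  · intro b _ hb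
    split_ifs with h1 h2
    · rfl
    · exact absurd (Fin.ext (by omega)) hb
    · rfl
  · intro h; exact absurd (Finset.mem_univ i) h

theorem Pc_coeff_zero {k : ℕ} (c : Fin k → ℝ) (j : ℕ) (hj : ∀ i : Fin k, i.val ≠ 0 →
    j ≠ i.val + 1) : (Pc c).coeff j = 0 := by
  rw [Pc_coeff]
  apply Finset.sum_eq_zero
  intro i _
  split_ifs with h1 h2
  · rfl
  · exact absurd h2 (hj i h1)
  · rfl

theorem Pc_natDegree {k : ℕ} (c : Fin k → ℝ) : (Pc c).natDegree ≤ k := by
  rw [Polynomial.natDegree_le_iff_coeff_eq_zero]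
  intro j hj
  apply Pc_coeff_zero
  intro i _
  have := i.2
  omega

theorem LP_Pc {k : ℕ} (c : Fin k → ℝ) : LP k (Pc c) = Lam c := by
  unfold LP Lam
  congr 1
  have h1 : ∑ i : Fin k, (if i.val = 0 then (0 : ℝ) else |c i|) =
      ∑ i ∈ Finset.univ.filter (fun i : Fin k => i.val ≠ 0), |(Pc c).coeff (i.val + 1)| := by
    rw [Finset.sum_filter]
    refine Finset.sum_congr rfl fun i _ => ?_
    split_ifs with h1 h2
    · exact absurd h1 h2
    · rfl
    · rw [Pc_coeff_succ c i h1]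
  rw [h1]
  symm
  refine Finset.sum_bij (fun (i : Fin k) _ => i.val + 1) ?_ ?_ ?_ ?_
  · intro i hi
    have := (Finset.mem_filter.1 hi).2
    have := i.2
    rw [Finset.mem_Icc]
    omega
  · intro a _ b _ hab
    exact Fin.ext (by omega)
  · intro j hj
    rw [Finset.mem_Icc] at hj
    refine ⟨⟨j - 1, by omega⟩, ?_, ?_⟩
    · rw [Finset.mem_filter]
      exact ⟨Finset.mem_univ _, by simp only [ne_eq]; omega⟩
    · simp only []
      omega
  · intro i _
    rfl

theorem min_hyp (A t : ℝ) (hA : 0 < A) : min A (1 / (1 + |t|)) ≤ 2 * (A / (1 + A * |t|)) := by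
  have ht := abs_nonneg t
  by_cases h : A * |t| ≤ 1
  · refine (min_le_left _ _).trans ?_
    rw [← mul_div_assoc, le_div_iff₀ (by positivity)]
    nlinarith
  · push Not at h
    refine (min_le_right _ _).trans ?_
    have ht0 : 0 < |t| := by
      by_contra hc
      have : |t| = 0 := le_antisymm (not_lt.1 hc) ht
      rw [this, mul_zero] at h
      linarith
    rw [← mul_div_assoc, div_le_div_iff₀ (by positivity) (by positivity)]
    nlinarith

theorem min_sum (A : ℝ) (hA : 0 ≤ A) (m : ℕ) (x : Fin m → ℝ) (hx : ∀ i, 0 ≤ x i) (B : ℝ)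
    (hBA : B ≤ A) (hB : B ≤ ∑ i, x i) : B ≤ ∑ i, min A (x i) := by
  by_cases h : ∃ i, A ≤ x i
  · obtain ⟨i, hi⟩ := h
    have h1 := Finset.single_le_sum (f := fun i => min A (x i))
      (fun i _ => le_min hA (hx i)) (Finset.mem_univ i)
    simp only [min_eq_left hi] at h1
    linarith
  · push Not at h
    refine hB.trans (le_of_eq ?_)
    exact Finset.sum_congr rfl fun i _ => (min_eq_right (h i).le).symm

theorem Lam_pos {k : ℕ} (c : Fin k → ℝ) : 1 ≤ Lam c := by
  unfold Lam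
  have : 0 ≤ ∑ i : Fin k, (if i.val = 0 then (0 : ℝ) else |c i|) := by
    apply Finset.sum_nonneg
    intro i _
    split_ifs
    · exact le_rfl
    · exact abs_nonneg _
  linarith

theorem Pc_diff {k : ℕ} (c c₀ : Fin k → ℝ) (h : ∀ i : Fin k, i.val ≠ 0 → |c i - c₀ i| ≤ 1)
    (j : ℕ) : |(Pc c₀).coeff j - (Pc c).coeff j| ≤ 1 := by
  by_cases hj : ∃ i : Fin k, i.val ≠ 0 ∧ j = i.val + 1
  · obtain ⟨i, hi, rfl⟩ := hj
    rw [Pc_coeff_succ c i hi, Pc_coeff_succ c₀ i hi, abs_sub_comm]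
    exact h i hi
  · push Not at hj
    rw [Pc_coeff_zero c j hj, Pc_coeff_zero c₀ j hj, sub_zero, abs_zero]
    norm_num

theorem pf_RMC (h1 : T_DEC) (h2 : T_HYP) (h3 : T_TAI) (h4 : T_CEL) : T_RMC := by
  intro k hk
  obtain ⟨C₁, hC₁, hdec⟩ := h1 k (by omega)
  obtain ⟨C₂, m, hC₂, hhyp⟩ := h2 k
  obtain ⟨C₃, hC₃, htai⟩ := h3 k
  obtain ⟨C₄, hC₄, hcel⟩ := h4 k
  refine ⟨2 * C₄ * (C₁ + C₂) + C₃ * C₄, m, by nlinarith, ?_⟩
  intro c₀
  obtain ⟨τ, hτ⟩ := hhyp (Pc c₀) (Pc_natDegree c₀)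
  refine ⟨τ, ?_⟩
  intro c hc t a b ha hab hb
  have hΛ := Lam_pos c₀
  set A := Am c₀ with hA
  have hA0 : 0 < A := by
    rw [hA]
    unfold Am
    positivity
  constructor
  · have hP0 : ∀ a b : ℝ, -1 ≤ a → a ≤ b → b ≤ 1 → ‖OP (Pc c₀) t a b‖ ^ 2 ≤
        2 * (C₁ + C₂) * ∑ i, A / (1 + A * |t - τ i|) := by
      intro a b ha hab hb
      have e1 := hdec (Pc c₀) t a b (Pc_natDegree c₀) ha hab hb
      rw [LP_Pc] at e1
      have e1' : ‖OP (Pc c₀) t a b‖ ^ 2 ≤ C₁ * A := e1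
      have e2 := hτ t a b ha hab hb
      have hx0 : ∀ i, 0 ≤ 1 / (1 + |t - τ i|) := fun i => by positivity
      have hs0 : 0 ≤ ∑ i, 1 / (1 + |t - τ i|) := Finset.sum_nonneg fun i _ => hx0 i
      have hCC : 0 < C₁ + C₂ := by linarith
      have h5 := min_sum A hA0.le m (fun i => 1 / (1 + |t - τ i|)) hx0
        (‖OP (Pc c₀) t a b‖ ^ 2 / (C₁ + C₂)) (by
          rw [div_le_iff₀ hCC]
          nlinarith) (by
          rw [div_le_iff₀ hCC]
          nlinarith)
      have h6 : ∑ i, min A (1 / (1 + |t - τ i|)) ≤ ∑ i, 2 * (A / (1 + A * |t - τ i|)) :=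
        Finset.sum_le_sum fun i _ => min_hyp A (t - τ i) hA0
      rw [← Finset.mul_sum] at h6
      have h7 := h5.trans h6
      rw [div_le_iff₀ hCC] at h7
      linarith
    have h8 := hcel (Pc c₀) (Pc c) t _ (Pc_natDegree c₀) (Pc_natDegree c) (Pc_diff c c₀ hc) hP0
      a b ha hab hb
    have hs : 0 ≤ ∑ i, A / (1 + A * |t - τ i|) :=
      Finset.sum_nonneg fun i _ => by positivity
    refine h8.trans ?_
    have h9 : C₄ * (2 * (C₁ + C₂) * ∑ i, A / (1 + A * |t - τ i|)) =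
        (2 * C₄ * (C₁ + C₂)) * ∑ i, A / (1 + A * |t - τ i|) := by ring
    rw [h9]
    apply mul_le_mul_of_nonneg_right _ hs
    nlinarith
  · intro ht
    have hCC : C₃ * Lam c₀ ≤ |t| := by
      refine le_trans ?_ ht
      apply mul_le_mul_of_nonneg_right _ (by linarith)
      nlinarith
    have hP0 : ∀ a b : ℝ, -1 ≤ a → a ≤ b → b ≤ 1 → ‖OP (Pc c₀) t a b‖ ^ 2 ≤ C₃ / t ^ 2 := by
      intro a b ha hab hb
      apply htai (Pc c₀) t a b (Pc_natDegree c₀) _ ha hab hb
      · rw [LP_Pc]; exact hCC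
      · apply Pc_coeff_zero
        intro i hi
        omega
    have h8 := hcel (Pc c₀) (Pc c) t _ (Pc_natDegree c₀) (Pc_natDegree c) (Pc_diff c c₀ hc) hP0
      a b ha hab hb
    refine h8.trans ?_
    rw [← mul_div_assoc]
    apply div_le_div_of_nonneg_right _ (sq_nonneg t)
    nlinarith

end Pool.Agent.H60.LVE
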